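import Mathlib.Analysis.SpecialFunctions.Pow.Asymptotics
import Mathlib.Analysis.SpecialFunctions.Log.Base
import Mathlib.Tactic
import Pool.Agent.Q221.MeanField.Upper

/-!
# The mean-field approximation fails for a strictly balanced graph

`H` is the spider with `s` legs of length one and `s` legs of length two, `p ~ c log n / n`. A
vertex of large degree whose neighbours, wherever they are, all have large degree produces many
copies of `H`, and this adaptive strategy is cheaper by a constant factor than every product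
measure.
-/

set_option autoImplicit false

namespace Pool.Agent.Results.MP_2bf17e_pr.MeanFieldFails

open Pool.Agent.Q221.MeanField Filter Topology

/-- the sequence of edge probabilities, of order `log n / n` -/
noncomputable def pseq (s n : ℕ) : ℝ :=
  if n < 4 then 1 / 2 else ((max 1 (Nat.log 2 n / (1600 * s)) : ℕ) : ℝ) / (n : ℝ)

theorem pseq_mem (s n : ℕ) : 0 < pseq s n ∧ pseq s n < 1 := by
  unfold pseq
  split_ifs with h
  · norm_num
  · push Not at h
    have hn : (0 : ℝ) < n := by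
      have : 0 < n := by omega
      exact_mod_cast this
    have h1 : (0 : ℝ) < ((max 1 (Nat.log 2 n / (1600 * s)) : ℕ) : ℝ) := by
      have : 0 < max 1 (Nat.log 2 n / (1600 * s)) := by positivity
      exact_mod_cast this
    refine ⟨by positivity, ?_⟩
    rw [div_lt_one hn]
    have h2 : Nat.log 2 n < n := Nat.log_lt_self 2 (by omega)
    have h3 : Nat.log 2 n / (1600 * s) ≤ Nat.log 2 n := Nat.div_le_self _ _
    have h4 : max 1 (Nat.log 2 n / (1600 * s)) < n := by
      apply max_lt <;> omega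
    exact_mod_cast h4

theorem pseq_special {s w : ℕ} (hs : 1 ≤ s) (hw : 1 ≤ w) :
    pseq s (NN s w) = (w : ℝ) / (NN s w : ℝ) := by
  have h4 : ¬ NN s w < 4 := by
    push Not
    unfold NN
    calc 4 = 2 ^ 2 := by norm_num
      _ ≤ 2 ^ (1600 * s * w) := by
        apply Nat.pow_le_pow_right (by norm_num)
        nlinarith
  unfold pseq
  rw [if_neg h4]
  congr 2
  have h5 : Nat.log 2 (NN s w) = 1600 * s * w := by
    unfold NN
    exact Nat.log_pow (by norm_num) _
  rw [h5, Nat.mul_div_cancel_left _ (by omega)]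
  exact max_eq_right hw

theorem log_bound (n : ℕ) : ((Nat.log 2 n : ℕ) : ℝ) ≤ 2 * Real.log n := by
  have h1 := Real.natLog_le_logb n 2
  rw [Real.logb] at h1
  have h2 : (0 : ℝ) ≤ Real.log n := Real.log_natCast_nonneg n
  have h3 := Real.log_two_gt_d9
  have h4 : Real.log n / Real.log 2 ≤ 2 * Real.log n := by
    rw [div_le_iff₀ (by linarith)]
    nlinarith
  have h5 : ((Nat.log 2 n : ℕ) : ℝ) ≤ Real.log n / Real.log ((2 : ℕ) : ℝ) := h1
  push_cast at h5
  linarith

theorem growth_upper {s : ℕ} {Δ : ℕ} (hΔ : 2 ≤ Δ) :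
    Tendsto (fun n : ℕ => pseq s n / (n : ℝ) ^ (-(1 / (Δ : ℝ)))) atTop (𝓝 0) := by
  have hlim : Tendsto (fun n : ℕ => (1 + 2 * Real.log n) / (n : ℝ) ^ (1 / 2 : ℝ)) atTop (𝓝 0) := by
    have h1 : Tendsto (fun x : ℝ => Real.log x / x ^ (1 / 2 : ℝ)) atTop (𝓝 0) :=
      (isLittleO_log_rpow_atTop (by norm_num)).tendsto_div_nhds_zero
    have h2 : Tendsto (fun x : ℝ => 1 / x ^ (1 / 2 : ℝ)) atTop (𝓝 0) := by
      have := (tendsto_rpow_atTop (show (0 : ℝ) < 1 / 2 by norm_num)).inv_tendsto_atTop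
      refine this.congr (fun x => ?_)
      rw [Pi.inv_apply]
      exact (one_div _).symm
    have h3 := h2.add (h1.const_mul 2)
    simp only [mul_zero, add_zero] at h3
    have h4 := h3.comp tendsto_natCast_atTop_atTop
    refine h4.congr (fun n => ?_)
    simp only [Function.comp]
    ring
  refine squeeze_zero' ?_ ?_ hlim
  · refine Eventually.of_forall (fun n => ?_)
    have := (pseq_mem s n).1
    positivity
  · filter_upwards [eventually_ge_atTop 4] with n hn
    have hn0 : (0 : ℝ) < n := by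
      have : 0 < n := by omega
      exact_mod_cast this
    have hn1 : (1 : ℝ) ≤ n := by
      have : 1 ≤ n := by omega
      exact_mod_cast this
    have h1 : pseq s n ≤ (1 + 2 * Real.log n) / n := by
      unfold pseq
      rw [if_neg (by omega)]
      apply div_le_div_of_nonneg_right _ hn0.le
      have h2 : max 1 (Nat.log 2 n / (1600 * s)) ≤ 1 + Nat.log 2 n := by
        have : Nat.log 2 n / (1600 * s) ≤ Nat.log 2 n := Nat.div_le_self _ _
        apply max_le <;> omega
      have h3 : ((max 1 (Nat.log 2 n / (1600 * s)) : ℕ) : ℝ) ≤ 1 + (Nat.log 2 n : ℕ) := by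
        exact_mod_cast h2
      linarith [log_bound n]
    have hΔR : (2 : ℝ) ≤ Δ := by exact_mod_cast hΔ
    have h2 : (n : ℝ) ^ (-(1 / 2 : ℝ)) ≤ (n : ℝ) ^ (-(1 / (Δ : ℝ))) := by
      apply Real.rpow_le_rpow_of_exponent_le hn1
      apply neg_le_neg
      apply one_div_le_one_div_of_le (by norm_num) hΔR
    have hlog : 0 ≤ Real.log n := Real.log_natCast_nonneg n
    calc pseq s n / (n : ℝ) ^ (-(1 / (Δ : ℝ)))
        ≤ ((1 + 2 * Real.log n) / n) / (n : ℝ) ^ (-(1 / 2 : ℝ)) := by
          apply div_le_div₀ (by positivity) h1 (by positivity) h2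
      _ = (1 + 2 * Real.log n) / (n : ℝ) ^ (1 / 2 : ℝ) := by
          rw [div_div]
          congr 1
          nth_rewrite 1 [← Real.rpow_one (n : ℝ)]
          rw [← Real.rpow_add hn0]
          norm_num

theorem growth_lower {s : ℕ} (K : ℝ) :
    Tendsto (fun n : ℕ => (n : ℝ) ^ (3 * s + 1) * pseq s n ^ (3 * s) / Real.log n ^ K)
      atTop atTop := by
  have h1 : Tendsto (fun x : ℝ => Real.log x ^ K / x ^ (1 : ℝ)) atTop (𝓝 0) :=
    (isLittleO_log_rpow_rpow_atTop K (by norm_num)).tendsto_div_nhds_zero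
  have h2 : Tendsto (fun n : ℕ => Real.log n ^ K / (n : ℝ) ^ (1 : ℝ)) atTop (𝓝 0) :=
    h1.comp tendsto_natCast_atTop_atTop
  have hpos : ∀ᶠ n : ℕ in atTop, Real.log n ^ K / (n : ℝ) ^ (1 : ℝ) ∈ Set.Ioi (0 : ℝ) := by
    filter_upwards [eventually_ge_atTop 2] with n hn
    have hn1 : (1 : ℝ) < n := by
      have : 1 < n := by omega
      exact_mod_cast this
    have : 0 < Real.log n := Real.log_pos hn1
    rw [Set.mem_Ioi]
    positivity
  have h3 : Tendsto (fun n : ℕ => Real.log n ^ K / (n : ℝ) ^ (1 : ℝ)) atTop (𝓝[>] 0) :=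
    tendsto_nhdsWithin_iff.mpr ⟨h2, hpos⟩
  have h4 := h3.inv_tendsto_nhdsGT_zero
  refine tendsto_atTop_mono' atTop ?_ h4
  filter_upwards [eventually_ge_atTop 4] with n hn
  have hn0 : (0 : ℝ) < n := by
    have : 0 < n := by omega
    exact_mod_cast this
  have hn1 : (1 : ℝ) < n := by
    have : 1 < n := by omega
    exact_mod_cast this
  have hlog : 0 < Real.log n := Real.log_pos hn1
  rw [Pi.inv_apply, inv_div, Real.rpow_one]
  apply div_le_div_of_nonneg_right _ (by positivity)
  have h5 : 1 / (n : ℝ) ≤ pseq s n := by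
    unfold pseq
    rw [if_neg (by omega)]
    apply div_le_div_of_nonneg_right _ hn0.le
    have : 1 ≤ max 1 (Nat.log 2 n / (1600 * s)) := le_max_left _ _
    exact_mod_cast this
  calc (n : ℝ) = (n : ℝ) ^ (3 * s + 1) * (1 / (n : ℝ)) ^ (3 * s) := by
        rw [pow_succ, one_div, inv_pow]
        field_simp
    _ ≤ (n : ℝ) ^ (3 * s + 1) * pseq s n ^ (3 * s) := by gcongr

/-- **Negative answer to Q1.** There are a strictly balanced graph `H`, an `ε ∈ (0,1)`, a `δ > 0`
and a sequence `p` with `p ≪ n^(-1/Δ)` and `n^(v_H) p^(e_H) ≫ (log n)^(α*/(α*-1))`, such that for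
infinitely many `n` the upper tail probability is positive and the first of the two inequalities,
`(1-ε) Ψ_{p,H}(δ(1-ε)) ≤ -log P(N(H,G(n,p)) ≥ (1+δ) n^(v_H) p^(e_H))`, fails. -/
theorem result : ∃ (V : Type) (_ : Fintype V) (H : SimpleGraph V),
    StrictlyBalanced H ∧ 1 < fracIndep H ∧
    ∃ ε δ : ℝ, 0 < ε ∧ ε < 1 ∧ 0 < δ ∧ ∃ p : ℕ → ℝ, (∀ n, 0 < p n ∧ p n < 1) ∧
      Tendsto (fun n : ℕ => p n / (n : ℝ) ^ (-(1 / (maxDeg H : ℝ)))) atTop (𝓝 0) ∧
      Tendsto (fun n : ℕ => (n : ℝ) ^ Fintype.card V * p n ^ H.edgeSet.ncard /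
        Real.log n ^ (fracIndep H / (fracIndep H - 1))) atTop atTop ∧
      ∃ᶠ n : ℕ in atTop,
        0 < upper H n (p n) ((1 + δ) * ((n : ℝ) ^ Fintype.card V * p n ^ H.edgeSet.ncard)) ∧
        -Real.log (upper H n (p n)
          ((1 + δ) * ((n : ℝ) ^ Fintype.card V * p n ^ H.edgeSet.ncard))) <
          (1 - ε) * Psi H n (p n) (δ * (1 - ε)) := by
  obtain ⟨s, hs⟩ : ∃ s : ℕ, (2 : ℝ) ^ 4800 ≤ s := exists_nat_ge _
  have h1000 := s_big hs
  refine ⟨VV s, inferInstance, spider s, strictlyBalanced s, one_lt_fracIndep (by omega),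
    1 / 10, 4 * 1440 ^ s, by norm_num, by norm_num, by positivity, pseq s, pseq_mem s,
    growth_upper (two_le_maxDeg (by omega)), ?_, ?_⟩
  · rw [card_VV, ncard_top]
    exact growth_lower _
  · rw [card_VV, ncard_top]
    rw [Filter.frequently_atTop]
    intro N
    obtain ⟨w, hw⟩ : ∃ w : ℕ, w = max s N := ⟨_, rfl⟩
    have hsw : s ≤ w := by rw [hw]; exact le_max_left _ _
    have hNw : N ≤ w := by rw [hw]; exact le_max_right _ _
    refine ⟨NN s w, ?_, ?_, ?_⟩
    · refine le_trans hNw ?_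
      unfold NN
      calc w ≤ 2 ^ w := Nat.lt_two_pow_self.le
        _ ≤ 2 ^ (1600 * s * w) := by
          apply Nat.pow_le_pow_right (by norm_num)
          nlinarith
    · have hp := pseq_special (s := s) (w := w) (by omega) (by omega)
      exact lt_of_lt_of_le (Real.exp_pos _) (prob_ge hs hsw rfl hp)
    · exact mean_field_fails hs hsw rfl (pseq_special (by omega) (by omega))

end Pool.Agent.Results.MP_2bf17e_pr.MeanFieldFails
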